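import Pool.Agent.V1172.PW.Eng
import Pool.Agent.Results.MP_4eb8d9_nt.AlmostAllTuples

/-!
# Polynomial lower bounds for `|a_1^{b_1} ⋯ a_m^{b_m} - 1|` for all tuples in shrinking residue classes

Let `v_n ≥ 1` be natural numbers with exponent of convergence at most `τ` (`τ = 0` for `⌈λ ^ n⌉`, `λ > 1`), `p` a prime and
`σ > 0`. Outside a set of Hausdorff dimension at most `(m - 1 / (m + 1) + τ) / σ` the following holds for all vectors `α`
of `p`-adic integers (the space `ℤ_p ^ m` has dimension `m`, so `σ < 1` is allowed): for every `κ` there is `E` such that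
for all large `n`, ALL tuples of integers `a` with `v_n ≤ a_j ≤ 2 v_n` and `|a_j - α_j|_p ≤ (2 v_n) ^ (-σ)`, that is, in the
residue class of `α` modulo `p ^ f ≥ (2 v_n) ^ σ`, and all integers `b_j`, not all zero and of absolute value at most
`v_n ^ κ`, one has `|a_1^{b_1} ⋯ a_m^{b_m} - 1| > v_n ^ (-E)`.
-/

set_option autoImplicit false

namespace Pool.Agent.Results.MP_4eb8d9_nt.TuplesInResidueClasses

open Filter Topology MeasureTheory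

/-- the exponent of convergence of the sequence `v` is at most `τ` -/
def ExpLe (v : ℕ → ℕ) (τ : ℝ) : Prop := ∀ t : ℝ, τ < t → Summable fun n : ℕ => (v n : ℝ) ^ (-t)

lemma count_idx {v : ℕ → ℕ} (hv : ∀ n, 1 ≤ v n) {τ t : ℝ} (hτ : 0 ≤ τ) (hE : ExpLe v τ) (ht : τ < t) :
    ∃ M : ℝ, 0 ≤ M ∧ ∀ X : ℝ, 1 ≤ X → ∀ F : Finset ℕ, (∀ n ∈ F, (v n : ℝ) ≤ X) → (F.card : ℝ) ≤ M * X ^ t := by
  have hs := hE t ht
  have hnn : ∀ n, 0 ≤ (v n : ℝ) ^ (-t) := fun n => Real.rpow_nonneg (Nat.cast_nonneg _) _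
  refine ⟨∑' n, (v n : ℝ) ^ (-t), tsum_nonneg hnn, fun X hX F hF => ?_⟩
  have hX0 : 0 < X := by linarith
  have h1 : (F.card : ℝ) * X ^ (-t) ≤ ∑ n ∈ F, (v n : ℝ) ^ (-t) := by
    rw [← nsmul_eq_mul]
    refine Finset.card_nsmul_le_sum F _ _ fun n hn => ?_
    have h2 : (1 : ℝ) ≤ v n := by exact_mod_cast hv n
    exact Real.rpow_le_rpow_of_nonpos (by linarith) (hF n hn) (by linarith)
  have h3 := h1.trans (hs.sum_le_tsum F fun n _ => hnn n)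
  rw [Real.rpow_neg hX0.le, ← div_eq_mul_inv, div_le_iff₀ (Real.rpow_pos_of_pos hX0 _)] at h3
  exact h3

lemma tendsto_of {v : ℕ → ℕ} (hv : ∀ n, 1 ≤ v n) {τ : ℝ} (hτ : 0 ≤ τ) (hE : ExpLe v τ) (B : ℝ) :
    ∀ᶠ n in atTop, B ≤ (v n : ℝ) := by
  have hs := (hE (τ + 1) (by linarith)).tendsto_atTop_zero
  have hB : 0 < (|B| + 1) ^ (-(τ + 1)) := Real.rpow_pos_of_pos (by positivity) _
  filter_upwards [hs.eventually (gt_mem_nhds hB)] with n hn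
  have h1 : (1 : ℝ) ≤ v n := by exact_mod_cast hv n
  by_contra hcon
  push Not at hcon
  have h2 : (v n : ℝ) ≤ |B| + 1 := by linarith [le_abs_self B]
  have h3 := Real.rpow_le_rpow_of_nonpos (z := -(τ + 1)) (by linarith) h2 (by linarith)
  linarith

/-- one `κ`, one `δ` -/
lemma step {m : ℕ} (hm : 1 ≤ m) {v : ℕ → ℕ} {τ : ℝ} (hv : ∀ n, 1 ≤ v n) (hτ : 0 ≤ τ) (hE : ExpLe v τ)
    (p : ℕ) [Fact p.Prime] {σ : ℝ} (hσ : 0 < σ) (κ : ℝ) (hκ : 0 ≤ κ) (δ : ℝ) (hδ : 0 < δ) :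
    ∃ (E : ℝ) (Z : Set (Fin m → ℤ_[p])),
      dimH Z ≤ ENNReal.ofReal (((m : ℝ) - 1 / ((m : ℝ) + 1) + τ + 2 * δ) / σ) ∧
      ∀ α ∉ Z, ∃ T₀ : ℝ, ∀ T ≥ T₀, ∀ a : Fin m → ℕ,
        (∀ i, (a i : ℝ) ≤ T ∧ ‖(a i : ℤ_[p]) - α i‖ ≤ T ^ (-σ)) → ∀ n, a ∉ AlmostAllTuples.Exceptional m (v n) κ E := by
  classical
  have hm0 : (1 : ℝ) ≤ m := by exact_mod_cast hm
  have hβ : (m : ℝ) / ((m : ℝ) + 1) < (m : ℝ) / ((m : ℝ) + 1) + δ := by linarith
  obtain ⟨E, C, h⟩ := AlmostAllTuples.result m hm κ _ hκ hβ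
  have e1 : (m : ℝ) - 1 + ((m : ℝ) / ((m : ℝ) + 1) + δ) = (m : ℝ) - 1 / ((m : ℝ) + 1) + δ := by
    field_simp
    ring
  rw [e1] at h
  obtain ⟨M, hM0, hM⟩ := count_idx hv hτ hE (show τ < τ + δ by linarith)
  have hs0 : 0 ≤ (m : ℝ) - 1 / ((m : ℝ) + 1) + δ := by
    have h1 : 1 / ((m : ℝ) + 1) ≤ 1 := by
      rw [div_le_one (by positivity)]
      linarith
    linarith
  obtain ⟨Z, hZ1, hZ2⟩ := Pool.Agent.V1172.PW.family p (k := m) (P := Fin m → ℕ) (fun x i => (x i : ℤ)) (ι := Unit)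
    (fun _ => {a : Fin m → ℕ | ∃ n, a ∈ AlmostAllTuples.Exceptional m (v n) κ E})
    (s := (m : ℝ) - 1 / ((m : ℝ) + 1) + τ + 2 * δ) (by linarith) (by
      intro _ ε hε
      refine ⟨M * max C 0, fun X hX => ?_⟩
      have hX0 : 0 < X := by linarith
      have hIfin : {n : ℕ | (v n : ℝ) ≤ X}.Finite := by
        have h1 := tendsto_of hv hτ hE (X + 1)
        obtain ⟨n₁, hn₁⟩ := eventually_atTop.1 h1
        refine (Set.finite_Iio n₁).subset fun n hn => ?_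
        rw [Set.mem_Iio]
        by_contra hcon
        have h2 := hn₁ n (not_lt.1 hcon)
        have h3 : (v n : ℝ) ≤ X := hn
        linarith
      set I : Finset ℕ := hIfin.toFinset with hI
      have hIX : ∀ n ∈ I, (v n : ℝ) ≤ X := by
        intro n hn
        rw [hI, Set.Finite.mem_toFinset] at hn
        exact hn
      set U : Finset (Fin m → ℕ) := I.biUnion fun n => (h (v n) (hv n)).1.toFinset with hU
      have hsub : {x : Fin m → ℕ | (∀ i, |(((x i : ℤ)) : ℝ)| ≤ X) ∧ x ∈ {a : Fin m → ℕ | ∃ n, a ∈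
          AlmostAllTuples.Exceptional m (v n) κ E}} ⊆ (U : Set (Fin m → ℕ)) := by
        rintro x ⟨h1, n, h2⟩
        rw [Finset.mem_coe, hU, Finset.mem_biUnion]
        refine ⟨n, ?_, (Set.Finite.mem_toFinset _).2 h2⟩
        rw [hI, Set.Finite.mem_toFinset]
        have h3 := (h2.1 ⟨0, by omega⟩).1
        have h4 := h1 ⟨0, by omega⟩
        rw [Int.cast_natCast, Nat.abs_cast] at h4
        have h5 : (v n : ℝ) ≤ (x ⟨0, by omega⟩ : ℝ) := by exact_mod_cast h3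
        exact h5.trans h4
      refine ⟨(Finset.finite_toSet U).subset hsub, ?_⟩
      have h6 := Set.ncard_le_ncard hsub (Finset.finite_toSet U)
      rw [Set.ncard_coe_finset] at h6
      have h7 : (U.card : ℝ) ≤ ∑ n ∈ I, max C 0 * X ^ ((m : ℝ) - 1 / ((m : ℝ) + 1) + δ) := by
        calc (U.card : ℝ) ≤ ((∑ n ∈ I, ((h (v n) (hv n)).1.toFinset).card : ℕ) : ℝ) := by
              exact_mod_cast Finset.card_biUnion_le
          _ = ∑ n ∈ I, (((h (v n) (hv n)).1.toFinset).card : ℝ) := by push_cast; rfl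
          _ ≤ _ := by
              refine Finset.sum_le_sum fun n hn => ?_
              rw [← Set.ncard_eq_toFinset_card _ (h (v n) (hv n)).1]
              refine (h (v n) (hv n)).2.trans ?_
              refine mul_le_mul (le_max_left _ _) ?_ (by positivity) (le_max_right _ _)
              exact Real.rpow_le_rpow (Nat.cast_nonneg _) (hIX n hn) hs0
      rw [Finset.sum_const, nsmul_eq_mul] at h7
      calc (({x : Fin m → ℕ | (∀ i, |(((x i : ℤ)) : ℝ)| ≤ X) ∧ x ∈ {a : Fin m → ℕ | ∃ n, a ∈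
            AlmostAllTuples.Exceptional m (v n) κ E}}.ncard : ℕ) : ℝ) ≤ (U.card : ℝ) := by exact_mod_cast h6
        _ ≤ (I.card : ℝ) * (max C 0 * X ^ ((m : ℝ) - 1 / ((m : ℝ) + 1) + δ)) := h7
        _ ≤ (M * X ^ (τ + δ)) * (max C 0 * X ^ ((m : ℝ) - 1 / ((m : ℝ) + 1) + δ)) :=
            mul_le_mul_of_nonneg_right (hM X hX I hIX)
              (mul_nonneg (le_max_right _ _) (Real.rpow_nonneg hX0.le _))
        _ = M * max C 0 * X ^ ((m : ℝ) - 1 / ((m : ℝ) + 1) + τ + 2 * δ) := by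
            have e2 : (m : ℝ) - 1 / ((m : ℝ) + 1) + τ + 2 * δ = (τ + δ) + ((m : ℝ) - 1 / ((m : ℝ) + 1) + δ) := by ring
            rw [e2, Real.rpow_add hX0 (τ + δ) ((m : ℝ) - 1 / ((m : ℝ) + 1) + δ)]
            ring
        _ ≤ M * max C 0 * X ^ ((m : ℝ) - 1 / ((m : ℝ) + 1) + τ + 2 * δ + ε) :=
            mul_le_mul_of_nonneg_left (Real.rpow_le_rpow_of_exponent_le hX (by linarith))
              (mul_nonneg hM0 (le_max_right _ _)))
    hσ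
  refine ⟨E, Z, hZ1, fun α hα => ?_⟩
  obtain ⟨T₀, hT⟩ := hZ2 α hα ()
  refine ⟨T₀, fun T hT1 a ha n hn => hT T hT1 a (fun i => ⟨?_, ?_⟩) ⟨n, hn⟩⟩
  · rw [Int.cast_natCast, Nat.abs_cast]
    exact (ha i).1
  · rw [Int.cast_natCast]
    exact (ha i).2

/-- **Polynomial lower bounds for all tuples in residue classes.** (1) Let `m ≥ 1`, `v_n ≥ 1` natural numbers with exponent
of convergence at most `τ`, `p` a prime, `σ > 0`. For all `α ∈ ℤ_p ^ m` outside a set of Hausdorff dimension at most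
`(m - 1 / (m + 1) + τ) / σ`: for every `κ` there is `E` such that for large `n`, all integers `v_n ≤ a_j ≤ 2 v_n` with
`|a_j - α_j|_p ≤ (2 v_n) ^ (-σ)` and all integers `b_j`, not all zero, `|b_j| ≤ v_n ^ κ`, one has
`|a_1^{b_1} ⋯ a_m^{b_m} - 1| > v_n ^ (-E)`. (2) The exponent of convergence of `⌈λ ^ n⌉`, `λ > 1`, is at most `0`. -/
theorem result :
    (∀ (m : ℕ), 1 ≤ m → ∀ (v : ℕ → ℕ) (τ : ℝ), (∀ n, 1 ≤ v n) → 0 ≤ τ → ExpLe v τ →
      ∀ (p : ℕ) [Fact p.Prime] (σ : ℝ), 0 < σ →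
      ∃ Z : Set (Fin m → ℤ_[p]), dimH Z ≤ ENNReal.ofReal (((m : ℝ) - 1 / ((m : ℝ) + 1) + τ) / σ) ∧
        ∀ α : Fin m → ℤ_[p], α ∉ Z → ∀ κ : ℝ, ∃ (E : ℝ) (n₀ : ℕ), ∀ n : ℕ, n₀ ≤ n → ∀ a : Fin m → ℕ,
          (∀ j, v n ≤ a j ∧ a j ≤ 2 * v n ∧ ‖(a j : ℤ_[p]) - α j‖ ≤ (2 * (v n : ℝ)) ^ (-σ)) →
          ∀ b : Fin m → ℤ, b ≠ 0 → (∀ j, |(b j : ℝ)| ≤ (v n : ℝ) ^ κ) →
            (v n : ℝ) ^ (-E) < |∏ j, (a j : ℝ) ^ (b j) - 1|) ∧
    (∀ x : ℝ, 1 < x → ExpLe (fun n : ℕ => ⌈x ^ n⌉₊) 0) := by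
  constructor
  swap
  · intro x hx t ht
    have hx0 : 0 < x := by linarith
    have hq0 : 0 ≤ x ^ (-t) := Real.rpow_nonneg hx0.le _
    have hq1 : x ^ (-t) < 1 := Real.rpow_lt_one_of_one_lt_of_neg hx (by linarith)
    refine Summable.of_nonneg_of_le (fun n => Real.rpow_nonneg (Nat.cast_nonneg _) _) (fun n => ?_)
      (summable_geometric_of_lt_one hq0 hq1)
    have h1 : x ^ n ≤ ((⌈x ^ n⌉₊ : ℕ) : ℝ) := Nat.le_ceil _
    calc ((⌈x ^ n⌉₊ : ℕ) : ℝ) ^ (-t) ≤ (x ^ n) ^ (-t) :=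
          Real.rpow_le_rpow_of_nonpos (by positivity) h1 (by linarith)
      _ = (x ^ (-t)) ^ n := by
          rw [← Real.rpow_natCast, ← Real.rpow_natCast, ← Real.rpow_mul hx0.le, ← Real.rpow_mul hx0.le]
          ring_nf
  intro m hm v τ hv hτ hE p hp σ hσ
  have hall : ∀ K k : ℕ, ∃ (E : ℝ) (Z : Set (Fin m → ℤ_[p])),
      dimH Z ≤ ENNReal.ofReal (((m : ℝ) - 1 / ((m : ℝ) + 1) + τ + 2 * (1 / ((k : ℝ) + 1))) / σ) ∧
      ∀ α ∉ Z, ∃ T₀ : ℝ, ∀ T ≥ T₀, ∀ a : Fin m → ℕ,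
        (∀ i, (a i : ℝ) ≤ T ∧ ‖(a i : ℤ_[p]) - α i‖ ≤ T ^ (-σ)) →
          ∀ n, a ∉ AlmostAllTuples.Exceptional m (v n) (K : ℝ) E := fun K k =>
    step hm hv hτ hE p hσ K (Nat.cast_nonneg _) _ (by positivity)
  choose E Z hZ1 hZ2 using hall
  refine ⟨⋃ K, ⋂ k, Z K k, ?_, fun α hα κ => ?_⟩
  · rw [dimH_iUnion]
    refine iSup_le fun K => ?_
    have hle : ∀ k : ℕ, dimH (⋂ k, Z K k) ≤
        ENNReal.ofReal (((m : ℝ) - 1 / ((m : ℝ) + 1) + τ + 2 * (1 / ((k : ℝ) + 1))) / σ) := fun k =>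
      (dimH_mono (Set.iInter_subset _ k)).trans (hZ1 K k)
    have ht : Tendsto (fun k : ℕ =>
        ENNReal.ofReal (((m : ℝ) - 1 / ((m : ℝ) + 1) + τ + 2 * (1 / ((k : ℝ) + 1))) / σ)) atTop
        (𝓝 (ENNReal.ofReal (((m : ℝ) - 1 / ((m : ℝ) + 1) + τ + 2 * 0) / σ))) := by
      refine ENNReal.tendsto_ofReal (Tendsto.div_const ?_ _)
      exact (tendsto_one_div_add_atTop_nhds_zero_nat.const_mul 2).const_add _
    have := ge_of_tendsto' ht hle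
    rw [mul_zero, add_zero] at this
    exact this
  · obtain ⟨K, hK⟩ := exists_nat_ge |κ|
    have hα' : α ∉ ⋂ k, Z K k := fun h => hα (Set.mem_iUnion.2 ⟨K, h⟩)
    rw [Set.mem_iInter, not_forall] at hα'
    obtain ⟨k, hk⟩ := hα'
    obtain ⟨T₀, hT⟩ := hZ2 K k α hk
    obtain ⟨n₀, hn₀⟩ := eventually_atTop.1 (tendsto_of hv hτ hE T₀)
    refine ⟨E K k, n₀, fun n hn a ha b hb0 hb => ?_⟩
    have hvn : (1 : ℝ) ≤ v n := by exact_mod_cast hv n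
    by_contra hcon
    rw [not_lt] at hcon
    refine hT (2 * (v n : ℝ)) ?_ a (fun i => ⟨?_, (ha i).2.2⟩) n ⟨fun j => ⟨(ha j).1, (ha j).2.1⟩, b, hb0, fun j => ?_, hcon⟩
    · have := hn₀ n hn
      linarith
    · exact_mod_cast (ha i).2.1
    · exact (hb j).trans (Real.rpow_le_rpow_of_exponent_le hvn ((le_abs_self κ).trans hK))

end Pool.Agent.Results.MP_4eb8d9_nt.TuplesInResidueClasses
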