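import Pool.Agent.Helper203.Win.Multi
import Pool.Agent.V35.WM
import Pool.Agent.Results.MP_4eb8d9_nt.AlmostAllTuples

/-!
# Polynomial lower bounds for `|a_1^{b_1} ⋯ a_m^{b_m} - 1|` for all tuples of integers in windows

Let `v_n ≥ 1` be a sequence with exponent of convergence at most `τ` (`τ = 0` for `b ^ n`, `τ = 1 / c` for `n ^ c`) and
`θ < 1`. Outside a set of Hausdorff dimension at most `(m - 1 / (m + 1) + τ) / (1 - θ)` the following holds for all
vectors `α` with positive coordinates, no coordinate being at least twice another: for every `κ` there is `E` such that for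
all large `n`, ALL tuples of integers `a` with `|a_j - α_j v_n| ≤ v_n ^ θ` and all integers `b_j`, not all zero and of
absolute value at most `v_n ^ κ`, one has `|a_1^{b_1} ⋯ a_m^{b_m} - 1| > v_n ^ (-E)`.
-/

set_option autoImplicit false

namespace Pool.Agent.Results.MP_4eb8d9_nt.TuplesInWindows

open Filter Topology

/-- the exponent of convergence of the sequence `v` is at most `τ` -/
def ExpLe (v : ℕ → ℝ) (τ : ℝ) : Prop := ∀ t : ℝ, τ < t → Summable fun n : ℕ => (v n) ^ (-t)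

/-- for every `κ` there is `E` such that for large `n`, all integers `a_j` with `|a_j - α_j v_n| ≤ v_n ^ θ` and all
integers `b_j`, not all zero, `|b_j| ≤ v_n ^ κ`, one has `|a_1^{b_1} ⋯ a_m^{b_m} - 1| > v_n ^ (-E)` -/
def PolynomialBound {m : ℕ} (v : ℕ → ℝ) (θ : ℝ) (α : Fin m → ℝ) : Prop :=
  ∀ κ : ℝ, ∃ (E : ℝ) (n0 : ℕ), ∀ n : ℕ, n0 ≤ n → ∀ a : Fin m → ℕ, (∀ j, |(a j : ℝ) - α j * v n| ≤ (v n) ^ θ) →
    ∀ b : Fin m → ℤ, b ≠ 0 → (∀ j, |(b j : ℝ)| ≤ (v n) ^ κ) → (v n) ^ (-E) < |∏ j, (a j : ℝ) ^ (b j) - 1|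

/-- one scale `c`, one `κ`, one `β` -/
lemma step {m : ℕ} (hm : 1 ≤ m) {v : ℕ → ℝ} {τ θ : ℝ} (hpos : ∀ n, 1 ≤ v n) (hτ : 0 ≤ τ) (hv : ExpLe v τ)
    (hθ : θ < 1) (c : ℝ) (hc : 0 < c) (κ : ℝ) (hκ : 0 ≤ κ) (δ : ℝ) (hδ : 0 < δ) :
    ∃ (E : ℝ) (Z : Set (Fin m → ℝ)), dimH Z ≤ ENNReal.ofReal (((m : ℝ) - 1 / ((m : ℝ) + 1) + δ + τ) / (1 - θ)) ∧
      ∀ α ∉ Z, ∃ n0 : ℕ, ∀ n : ℕ, n0 ≤ n → ∀ t ∈ AlmostAllTuples.Exceptional m ⌊c * v n⌋₊ κ E,
        (v n) ^ θ < ‖(fun j => (t j : ℝ)) - v n • α‖ := by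
  have hm0 : (1 : ℝ) ≤ m := by exact_mod_cast hm
  have hβ : (m : ℝ) / ((m : ℝ) + 1) < (m : ℝ) / ((m : ℝ) + 1) + δ := by linarith
  obtain ⟨E, C, h⟩ := AlmostAllTuples.result m hm κ _ hκ hβ
  have hs : 0 ≤ (m : ℝ) - 1 / ((m : ℝ) + 1) + δ := by
    have h1 : 1 / ((m : ℝ) + 1) ≤ 1 := by
      rw [div_le_one (by positivity)]
      linarith
    linarith
  have hvp : ∀ n, 0 < v n := fun n => lt_of_lt_of_le one_pos (hpos n)
  have htv : Tendsto v atTop atTop := Pool.Agent.Y854.GM.tendsto_of_expLe hvp hτ hv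
  obtain ⟨Z, hZ, hZ2⟩ := Pool.Agent.Helper203.Win.windowsM
    (fun n => AlmostAllTuples.Exceptional m ⌊c * v n⌋₊ κ E) (fun _ (t : Fin m → ℕ) => (fun j => (t j : ℝ)))
    hpos hτ hv hs hθ (by
      intro A ε hε
      have he : ∃ n₁ : ℕ, ∀ n : ℕ, n₁ ≤ n → 1 ≤ c * v n := by
        have h1 := (htv.const_mul_atTop hc).eventually_ge_atTop 1
        exact eventually_atTop.1 h1
      obtain ⟨n₁, hn₁⟩ := he
      refine ⟨max C 0 * (max c 1) ^ ((m : ℝ) - 1 / ((m : ℝ) + 1) + δ), n₁, fun n hn => ?_⟩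
      have h1 := hn₁ n hn
      have hN : 1 ≤ ⌊c * v n⌋₊ := (Nat.one_le_floor_iff _).2 h1
      obtain ⟨g1, g2⟩ := h ⌊c * v n⌋₊ hN
      have hsub : {t | t ∈ AlmostAllTuples.Exceptional m ⌊c * v n⌋₊ κ E ∧
          ‖(fun j => ((t j : ℕ) : ℝ))‖ ≤ ((A : ℝ) + 1) * v n} ⊆ AlmostAllTuples.Exceptional m ⌊c * v n⌋₊ κ E :=
        fun t ht => ht.1
      refine ⟨g1.subset hsub, ?_⟩
      have g3 : ((⌊c * v n⌋₊ : ℕ) : ℝ) ≤ c * v n := Nat.floor_le (by linarith)
      have g4 : (0 : ℝ) ≤ ((⌊c * v n⌋₊ : ℕ) : ℝ) := Nat.cast_nonneg _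
      have e1 : (m : ℝ) - 1 + ((m : ℝ) / ((m : ℝ) + 1) + δ) = (m : ℝ) - 1 / ((m : ℝ) + 1) + δ := by
        field_simp
        ring
      rw [e1] at g2
      calc ({t | t ∈ AlmostAllTuples.Exceptional m ⌊c * v n⌋₊ κ E ∧
          ‖(fun j => ((t j : ℕ) : ℝ))‖ ≤ ((A : ℝ) + 1) * v n}.ncard : ℝ)
          ≤ ((AlmostAllTuples.Exceptional m ⌊c * v n⌋₊ κ E).ncard : ℝ) := by
            exact_mod_cast Set.ncard_le_ncard hsub g1
        _ ≤ C * ((⌊c * v n⌋₊ : ℕ) : ℝ) ^ ((m : ℝ) - 1 / ((m : ℝ) + 1) + δ) := g2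
        _ ≤ max C 0 * ((max c 1) * v n) ^ ((m : ℝ) - 1 / ((m : ℝ) + 1) + δ) := by
            refine mul_le_mul (le_max_left _ _) ?_ (by positivity) (le_max_right _ _)
            refine Real.rpow_le_rpow g4 (g3.trans ?_) hs
            exact mul_le_mul_of_nonneg_right (le_max_left _ _) (hvp n).le
        _ = max C 0 * (max c 1) ^ ((m : ℝ) - 1 / ((m : ℝ) + 1) + δ) *
            (v n) ^ ((m : ℝ) - 1 / ((m : ℝ) + 1) + δ) := by
            rw [Real.mul_rpow (by positivity) (hvp n).le]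
            ring
        _ ≤ max C 0 * (max c 1) ^ ((m : ℝ) - 1 / ((m : ℝ) + 1) + δ) *
            (v n) ^ ((m : ℝ) - 1 / ((m : ℝ) + 1) + δ + ε) := by
            refine mul_le_mul_of_nonneg_left ?_ (by positivity)
            exact Real.rpow_le_rpow_of_exponent_le (hpos n) (by linarith))
  exact ⟨E, Z, hZ, hZ2⟩

/-- **Polynomial lower bounds for all tuples in windows.** -/
theorem result :
    (∀ (m : ℕ), 1 ≤ m → ∀ (v : ℕ → ℝ) (τ θ : ℝ), (∀ n, 1 ≤ v n) → 0 ≤ τ → ExpLe v τ → θ < 1 →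
      ∃ Z : Set (Fin m → ℝ), dimH Z ≤ ENNReal.ofReal (((m : ℝ) - 1 / ((m : ℝ) + 1) + τ) / (1 - θ)) ∧
        ∀ α : Fin m → ℝ, α ∉ Z → (∀ i, 0 < α i) → (∀ i j, α i < 2 * α j) → PolynomialBound v θ α) ∧
    (∀ c : ℝ, 0 < c → ExpLe (fun n : ℕ => ((n : ℝ) + 1) ^ c) (1 / c)) ∧
    (∀ b : ℝ, 1 < b → ExpLe (fun n : ℕ => b ^ n) 0) := by
  refine ⟨?_, Pool.Agent.V35.WM.expLe_pow, Pool.Agent.V35.WM.expLe_geom⟩
  intro m hm v τ θ hpos hτ hv hθ
  have h1θ : 0 < 1 - θ := by linarith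
  have hvp : ∀ n, 0 < v n := fun n => lt_of_lt_of_le one_pos (hpos n)
  have htv : Tendsto v atTop atTop := Pool.Agent.Y854.GM.tendsto_of_expLe hvp hτ hv
  have hm0 : (1 : ℝ) ≤ m := by exact_mod_cast hm
  have hall : ∀ (c : {c : ℚ // 0 < c}) (κ k : ℕ), ∃ (E : ℝ) (Z : Set (Fin m → ℝ)),
      dimH Z ≤ ENNReal.ofReal (((m : ℝ) - 1 / ((m : ℝ) + 1) + 1 / ((k : ℝ) + 1) + τ) / (1 - θ)) ∧
      ∀ α ∉ Z, ∃ n0 : ℕ, ∀ n : ℕ, n0 ≤ n → ∀ t ∈ AlmostAllTuples.Exceptional m ⌊(c.1 : ℝ) * v n⌋₊ κ E,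
        (v n) ^ θ < ‖(fun j => (t j : ℝ)) - v n • α‖ := fun c κ k =>
    step hm hpos hτ hv hθ (c.1 : ℝ) (by exact_mod_cast c.2) κ (Nat.cast_nonneg _) _ (by positivity)
  choose E Z hZ1 hZ2 using hall
  refine ⟨⋃ c, ⋃ κ, ⋂ k, Z c κ k, ?_, ?_⟩
  · rw [dimH_iUnion]
    refine iSup_le fun c => ?_
    rw [dimH_iUnion]
    refine iSup_le fun κ => ?_
    have hle : ∀ k : ℕ, dimH (⋂ k, Z c κ k) ≤
        ENNReal.ofReal (((m : ℝ) - 1 / ((m : ℝ) + 1) + 1 / ((k : ℝ) + 1) + τ) / (1 - θ)) := fun k =>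
      (dimH_mono (Set.iInter_subset _ k)).trans (hZ1 c κ k)
    have ht : Tendsto (fun k : ℕ =>
        ENNReal.ofReal (((m : ℝ) - 1 / ((m : ℝ) + 1) + 1 / ((k : ℝ) + 1) + τ) / (1 - θ))) atTop
        (𝓝 (ENNReal.ofReal (((m : ℝ) - 1 / ((m : ℝ) + 1) + 0 + τ) / (1 - θ)))) := by
      refine ENNReal.tendsto_ofReal (Tendsto.div_const ?_ _)
      exact (tendsto_one_div_add_atTop_nhds_zero_nat.const_add _).add_const _
    have := ge_of_tendsto' ht hle
    rw [add_zero] at this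
    exact this
  · intro α hα hα0 hα2 κ
    -- the scale
    obtain ⟨i0⟩ : Nonempty (Fin m) := ⟨⟨0, by omega⟩⟩
    obtain ⟨j1, -, hj1⟩ := Finset.exists_min_image (Finset.univ : Finset (Fin m)) α ⟨i0, Finset.mem_univ _⟩
    obtain ⟨j2, -, hj2⟩ := Finset.exists_max_image (Finset.univ : Finset (Fin m)) α ⟨i0, Finset.mem_univ _⟩
    obtain ⟨c, hc1, hc2⟩ := exists_rat_btwn (show α j2 / 2 < α j1 by linarith [hα2 j2 j1])
    have hc0 : (0 : ℝ) < c := by linarith [hα0 j2]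
    have hc0' : 0 < c := by exact_mod_cast hc0
    obtain ⟨K, hK⟩ := exists_nat_ge (|κ| + 1)
    have hα' : α ∉ ⋂ k, Z ⟨c, hc0'⟩ K k := fun h =>
      hα (Set.mem_iUnion.2 ⟨⟨c, hc0'⟩, Set.mem_iUnion.2 ⟨K, h⟩⟩)
    rw [Set.mem_iInter, not_forall] at hα'
    obtain ⟨k, hk⟩ := hα'
    obtain ⟨n1, hn1⟩ := hZ2 ⟨c, hc0'⟩ K k α hk
    set E0 := E ⟨c, hc0'⟩ K k with hE0
    refine ⟨|E0| + 1, ?_⟩
    -- eventual inequalities
    have hlow : ∀ᶠ n in atTop, (v n) ^ θ ≤ (α j1 - c) * v n := by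
      have h1 : Tendsto (fun n => (v n) ^ (-(1 - θ))) atTop (𝓝 0) := (tendsto_rpow_neg_atTop h1θ).comp htv
      have h2 := h1.eventually (ge_mem_nhds (show (0 : ℝ) < α j1 - c by linarith))
      filter_upwards [h2] with n hn
      have h3 := mul_le_mul_of_nonneg_right hn (hvp n).le
      have h4 : (v n) ^ (-(1 - θ)) * v n = (v n) ^ θ := by
        rw [← Real.rpow_add_one (hvp n).ne']
        congr 1
        ring
      rwa [h4] at h3
    have hupp : ∀ᶠ n in atTop, (v n) ^ θ ≤ (2 * c - α j2) / 2 * v n := by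
      have h1 : Tendsto (fun n => (v n) ^ (-(1 - θ))) atTop (𝓝 0) := (tendsto_rpow_neg_atTop h1θ).comp htv
      have h2 := h1.eventually (ge_mem_nhds (show (0 : ℝ) < (2 * c - α j2) / 2 by linarith))
      filter_upwards [h2] with n hn
      have h3 := mul_le_mul_of_nonneg_right hn (hvp n).le
      have h4 : (v n) ^ (-(1 - θ)) * v n = (v n) ^ θ := by
        rw [← Real.rpow_add_one (hvp n).ne']
        congr 1
        ring
      rwa [h4] at h3
    have hbig := htv.eventually_ge_atTop (max (4 / (2 * c - α j2)) (max (2 / (c : ℝ)) (max (c : ℝ) (2 / c) ^ (|κ| + |E0| + 2))))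
    have hev := (hlow.and (hupp.and hbig)).and (eventually_ge_atTop n1)
    obtain ⟨n0, hn0⟩ := eventually_atTop.1 hev
    refine ⟨n0, fun n hn a ha b hb0 hb => ?_⟩
    obtain ⟨⟨g1, g2, g3⟩, g4⟩ := hn0 n hn
    have g5 : 4 / (2 * c - α j2) ≤ v n := (le_max_left _ _).trans g3
    have g6 : 2 / c ≤ v n := ((le_max_left _ _).trans (le_max_right _ _)).trans g3
    have g7 : max (c : ℝ) (2 / c) ^ (|κ| + |E0| + 2) ≤ v n := ((le_max_right _ _).trans (le_max_right _ _)).trans g3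
    have hvn := hvp n
    have hcv : 2 ≤ c * v n := by
      rw [div_le_iff₀ hc0] at g6
      linarith
    set N := ⌊(c : ℝ) * v n⌋₊ with hN
    have hN1 : (N : ℝ) ≤ c * v n := Nat.floor_le (by linarith)
    have hN2 : (c : ℝ) * v n < N + 1 := Nat.lt_floor_add_one _
    have hN3 : (1 : ℝ) ≤ N := by linarith
    by_contra hcon
    rw [not_lt] at hcon
    -- `a` is exceptional
    have hmem : a ∈ AlmostAllTuples.Exceptional m N (K : ℝ) E0 := by
      refine ⟨fun j => ⟨?_, ?_⟩, b, hb0, fun j => ?_, ?_⟩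
      · have h1 := (abs_le.1 (ha j)).1
        have h2 := hj1 j (Finset.mem_univ _)
        have h3 : (N : ℝ) ≤ a j := by
          have h4 : α j1 * v n ≤ α j * v n := mul_le_mul_of_nonneg_right h2 hvn.le
          linarith
        exact_mod_cast h3
      · have h1 := (abs_le.1 (ha j)).2
        have h2 := hj2 j (Finset.mem_univ _)
        have h3 : (a j : ℝ) ≤ 2 * N := by
          have h4 : α j * v n ≤ α j2 * v n := mul_le_mul_of_nonneg_right h2 hvn.le
          have h5 : 0 < 2 * c - α j2 := by linarith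
          rw [div_le_iff₀ h5] at g5
          linarith
        exact_mod_cast h3
      · refine (hb j).trans ?_
        -- `v ^ κ ≤ N ^ K`
        have h1 : v n ≤ (2 / c) * N := by
          rw [div_mul_eq_mul_div, le_div_iff₀ hc0]
          linarith
        have h2 : (v n) ^ κ ≤ (v n) ^ |κ| := Real.rpow_le_rpow_of_exponent_le (hpos n) (le_abs_self κ)
        have hM : (1 : ℝ) ≤ max (c : ℝ) (2 / c) := by
          rcases le_total (1 : ℝ) c with h | h
          · exact h.trans (le_max_left _ _)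
          · refine le_trans ?_ (le_max_right _ _)
            rw [le_div_iff₀ hc0]
            linarith
        have hMp : (0 : ℝ) < max (c : ℝ) (2 / c) := by linarith
        have h3 : (2 / (c : ℝ)) ^ (|κ| + 1) ≤ v n := by
          refine le_trans ?_ g7
          refine (Real.rpow_le_rpow (by positivity) (le_max_right (c : ℝ) _) (by positivity)).trans ?_
          exact Real.rpow_le_rpow_of_exponent_le hM (by linarith [abs_nonneg E0])
        have h4 : (v n) ^ (|κ| + 1) ≤ ((2 / c) * N) ^ (|κ| + 1) := Real.rpow_le_rpow hvn.le h1 (by positivity)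
        rw [Real.mul_rpow (by positivity) (by positivity), Real.rpow_add_one hvn.ne'] at h4
        have h5 : (v n) ^ |κ| * v n ≤ (N : ℝ) ^ (|κ| + 1) * v n := by
          refine h4.trans ?_
          rw [mul_comm]
          exact mul_le_mul_of_nonneg_left h3 (by positivity)
        have h6 : (v n) ^ |κ| ≤ (N : ℝ) ^ (|κ| + 1) := le_of_mul_le_mul_right h5 hvn
        exact (h2.trans h6).trans (Real.rpow_le_rpow_of_exponent_le hN3 hK)
      · refine hcon.trans ?_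
        -- `v ^ (-(|E| + 1)) ≤ N ^ (-E)`
        have hM : (1 : ℝ) ≤ max (c : ℝ) (2 / c) := by
          rcases le_total (1 : ℝ) c with h | h
          · exact h.trans (le_max_left _ _)
          · refine le_trans ?_ (le_max_right _ _)
            rw [le_div_iff₀ hc0]
            linarith
        have h1 : (N : ℝ) ^ |E0| ≤ (v n) ^ (|E0| + 1) := by
          have h2 : (N : ℝ) ^ |E0| ≤ (c * v n) ^ |E0| := Real.rpow_le_rpow (by positivity) hN1 (by positivity)
          rw [Real.mul_rpow hc0.le hvn.le] at h2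
          have h3 : (c : ℝ) ^ |E0| ≤ v n := by
            refine le_trans ?_ g7
            refine (Real.rpow_le_rpow hc0.le (le_max_left (c : ℝ) (2 / c)) (by positivity)).trans ?_
            exact Real.rpow_le_rpow_of_exponent_le hM (by linarith [abs_nonneg κ])
          rw [Real.rpow_add_one hvn.ne', mul_comm]
          refine h2.trans ?_
          exact mul_le_mul_of_nonneg_right h3 (by positivity)
        rw [Real.rpow_neg hvn.le]
        have h4 : (N : ℝ) ^ (-|E0|) ≤ (N : ℝ) ^ (-E0) :=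
          Real.rpow_le_rpow_of_exponent_le hN3 (by linarith [le_abs_self E0])
        refine le_trans ?_ h4
        rw [Real.rpow_neg (by linarith)]
        exact inv_anti₀ (by positivity) h1
    have h1 := hn1 n g4 a hmem
    have h2 : ‖(fun j => ((a j : ℕ) : ℝ)) - v n • α‖ ≤ (v n) ^ θ := by
      rw [pi_norm_le_iff_of_nonneg (by positivity)]
      intro j
      have h3 := ha j
      rw [Real.norm_eq_abs]
      simpa [mul_comm] using h3
    linarith

end Pool.Agent.Results.MP_4eb8d9_nt.TuplesInWindows
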