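import Pool.Agent.Results.MP_4eb8d9_nt.AlmostAllTuples
import Pool.Agent.H107.MetricFam
import Pool.Agent.H2N.NearSpace

/-!
# Polynomial lower bounds for `|a_1^{b_1} ⋯ a_{k+1}^{b_{k+1}} - 1|` for all tuples near almost every direction

Let `k ≥ 1`. For all `κ` and `σ > (k + 1 - 1 / (k + 2)) / k` there is `E` such that for almost every `z ∈ ℝ ^ k` for which
the numbers `z_1, …, z_k, 1` are positive and none of them is at least twice another one, for ALL tuples `a` of positive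
integers with `|a_i / a_{k + 1} - z_i| ≤ (max a_j) ^ (-σ)` for `i = 1, …, k`, except for finitely many, and all integers
`b_j`, not all zero, with `|b_j| ≤ (max a_j) ^ κ` one has `|a_1^{b_1} ⋯ a_{k+1}^{b_{k+1}} - 1| > (max a_j) ^ (-E)`. The
exponents `σ` between `(k + 1 - 1 / (k + 2)) / k` and `(k + 1) / k` are allowed, for which there are infinitely many such
tuples near every such `z`, by Dirichlet's theorem.
-/

set_option autoImplicit false

namespace Pool.Agent.Results.MP_4eb8d9_nt.TuplesNearDirections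

open MeasureTheory Filter Topology

/-- the largest entry of the tuple -/
def top {m : ℕ} (a : Fin m → ℕ) : ℕ := Finset.univ.sup a

/-- There are integers `b_j`, not all zero, `|b_j| ≤ (top a) ^ κ`, with `|a_1^{b_1} ⋯ a_m^{b_m} - 1| ≤ (top a) ^ (-E)`. -/
def Small {m : ℕ} (κ E : ℝ) (a : Fin m → ℕ) : Prop :=
  ∃ b : Fin m → ℤ, b ≠ 0 ∧ (∀ j, |(b j : ℝ)| ≤ (top a : ℝ) ^ κ) ∧ |∏ j, (a j : ℝ) ^ (b j) - 1| ≤ (top a : ℝ) ^ (-E)

/-- The numbers `z_1, …, z_k, 1` are positive and none of them is at least twice another one. -/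
def Comparable {k : ℕ} (z : Fin k → ℝ) : Prop :=
  (∀ i, 1 / 2 < z i ∧ z i < 2) ∧ ∀ i j, z i < 2 * z j

/-- the exceptional tuples -/
def Bad (m : ℕ) (ρ κ E : ℝ) : Set (Fin m → ℕ) :=
  {a | (∀ j, 1 ≤ a j) ∧ (∀ i j, (a i : ℝ) ≤ ρ * a j) ∧ Small κ E a}

theorem le_top {m : ℕ} (a : Fin m → ℕ) (j : Fin m) : a j ≤ top a := Finset.le_sup (f := a) (Finset.mem_univ j)

/-- the height -/
noncomputable def ht {m : ℕ} (a : Fin m → ℕ) : ℝ := max 1 (top a : ℝ)

theorem one_le_ht {m : ℕ} (a : Fin m → ℕ) : 1 ≤ ht a := le_max_left _ _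

theorem ht_eq {m : ℕ} {a : Fin (m + 1) → ℕ} (ha : ∀ j, 1 ≤ a j) : ht a = top a := by
  refine max_eq_right ?_
  have h1 := le_top a 0
  have h2 := ha 0
  exact_mod_cast (by omega : 1 ≤ top a)

/-- the number of the exceptional tuples -/
theorem count (m : ℕ) (hm : 1 ≤ m) (κ δ : ℝ) (hδ : 0 < δ) :
    ∃ E : ℝ, ∀ ρ : ℝ, ρ < 2 → ∀ ε : ℝ, 0 < ε → ∃ C : ℝ, ∀ X : ℝ, 1 ≤ X →
      {a | a ∈ Bad m ρ κ E ∧ ht a ≤ X}.Finite ∧
      ({a | a ∈ Bad m ρ κ E ∧ ht a ≤ X}.ncard : ℝ) ≤ C * X ^ ((m : ℝ) - 1 / ((m : ℝ) + 1) + δ + ε) := by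
  classical
  have hm0 : (1 : ℝ) ≤ m := by exact_mod_cast hm
  obtain ⟨E0, C0, h⟩ := AlmostAllTuples.result m hm (|κ| + 1) ((m : ℝ) / ((m : ℝ) + 1) + δ) (by positivity)
    (by linarith)
  have hs : (m : ℝ) - 1 + ((m : ℝ) / ((m : ℝ) + 1) + δ) = (m : ℝ) - 1 / ((m : ℝ) + 1) + δ := by
    field_simp
    ring
  rw [hs] at h
  set s : ℝ := (m : ℝ) - 1 / ((m : ℝ) + 1) + δ with hsdef
  have hs0 : 0 ≤ s := by
    have h1 : 1 / ((m : ℝ) + 1) ≤ 1 := by
      rw [div_le_one (by positivity)]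
      linarith
    rw [hsdef]
    linarith
  refine ⟨max E0 0, fun ρ hρ ε hε => ?_⟩
  set ρ₁ : ℝ := max ρ 1 with hρ1
  have hρ1a : 1 ≤ ρ₁ := le_max_right _ _
  have hρ1b : ρ₁ < 2 := max_lt hρ (by norm_num)
  have hρ1p : 0 < ρ₁ := by linarith
  set g : ℝ := (1 + 2 / ρ₁) / 2 with hg
  have hg1 : 1 < g := by
    have h1 : 1 < 2 / ρ₁ := by
      rw [lt_div_iff₀ hρ1p]
      linarith
    rw [hg]
    linarith
  have hgρ : ρ₁ * g < 2 := by
    have h1 : ρ₁ * g = (ρ₁ + 2) / 2 := by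
      rw [hg]
      field_simp
    rw [h1]
    linarith
  have hgp : 0 < g := by linarith
  have hlg : 0 < Real.log g := Real.log_pos hg1
  obtain ⟨N₀, hN₀⟩ := exists_nat_ge (max (ρ₁ * g / (2 - ρ₁ * g)) ((2 : ℝ) ^ |κ|))
  set T₀ : ℕ := 2 * (N₀ + 1) with hT₀
  have hfl : ∀ n : ℕ, 1 ≤ ⌊g ^ n⌋₊ := fun n => Nat.le_floor (by
    rw [Nat.cast_one]
    exact one_le_pow₀ hg1.le)
  set W : ℕ → Finset (Fin m → ℕ) := fun n => (h ⌊g ^ n⌋₊ (hfl n)).1.toFinset with hW
  set B : Finset (Fin m → ℕ) := Fintype.piFinset fun _ : Fin m => Finset.range (T₀ + 1) with hB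
  refine ⟨(B.card : ℝ) + (1 / (ε * Real.log g) + 1) * |C0|, fun X hX => ?_⟩
  have hX0 : 0 < X := by linarith
  have hlX : 0 ≤ Real.log X := Real.log_nonneg hX
  set L : ℕ := ⌊Real.log X / Real.log g⌋₊ with hL
  have hsub : {a | a ∈ Bad m ρ κ (max E0 0) ∧ ht a ≤ X} ⊆
      ((B ∪ (Finset.range (L + 1)).biUnion W : Finset (Fin m → ℕ)) : Set (Fin m → ℕ)) := by
    rintro a ⟨⟨ha1, haρ, b, hb0, hb, hbE⟩, haX⟩
    rw [Finset.coe_union, Set.mem_union]
    obtain ⟨j1, -, hj1⟩ := Finset.exists_min_image (Finset.univ : Finset (Fin m)) a ⟨⟨0, by omega⟩, Finset.mem_univ _⟩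
    have hμ1 : (1 : ℝ) ≤ a j1 := by exact_mod_cast ha1 j1
    obtain ⟨n, hn1, hn2⟩ := exists_nat_pow_near hμ1 hg1
    set N := ⌊g ^ n⌋₊ with hN
    have hNg : (N : ℝ) ≤ g ^ n := Nat.floor_le (by positivity)
    have hgN : g ^ n < (N : ℝ) + 1 := Nat.lt_floor_add_one _
    have hN1 : 1 ≤ N := hfl n
    have hN1r : (1 : ℝ) ≤ N := by exact_mod_cast hN1
    have hlow : ∀ j, N ≤ a j := by
      intro j
      have h1 : a j1 ≤ a j := hj1 j (Finset.mem_univ _)
      have h2 : (N : ℝ) ≤ a j1 := hNg.trans hn1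
      have h3 : N ≤ a j1 := by exact_mod_cast h2
      exact h3.trans h1
    have hupp : ∀ j, (a j : ℝ) < ρ₁ * g * ((N : ℝ) + 1) := by
      intro j
      have h1 : (a j : ℝ) ≤ ρ * a j1 := haρ j j1
      have h2 : ρ * (a j1 : ℝ) ≤ ρ₁ * a j1 := mul_le_mul_of_nonneg_right (le_max_left _ _) (by positivity)
      have h3 : ρ₁ * (a j1 : ℝ) < ρ₁ * g ^ (n + 1) := mul_lt_mul_of_pos_left hn2 hρ1p
      have h4 : ρ₁ * g ^ (n + 1) = ρ₁ * g * g ^ n := by ring
      have h5 : ρ₁ * g * g ^ n < ρ₁ * g * ((N : ℝ) + 1) := mul_lt_mul_of_pos_left hgN (by positivity)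
      linarith
    by_cases hNN : N₀ ≤ N
    · right
      have hNNr : (N₀ : ℝ) ≤ N := by exact_mod_cast hNN
      have hbig1 : ρ₁ * g / (2 - ρ₁ * g) ≤ N := ((le_max_left _ _).trans hN₀).trans hNNr
      have hbig2 : (2 : ℝ) ^ |κ| ≤ N := ((le_max_right _ _).trans hN₀).trans hNNr
      rw [div_le_iff₀ (by linarith)] at hbig1
      have hupp2 : ∀ j, (a j : ℝ) ≤ 2 * N := fun j => by
        have h1 := hupp j
        nlinarith
      have htopN : (top a : ℝ) ≤ 2 * N := by
        have h1 : top a ≤ 2 * N := Finset.sup_le fun j _ => by exact_mod_cast hupp2 j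
        exact_mod_cast h1
      have hNtop : (N : ℝ) ≤ top a := by
        exact_mod_cast (hlow j1).trans (le_top a j1)
      have htop1 : (1 : ℝ) ≤ top a := hN1r.trans hNtop
      have hNX : g ^ n ≤ X := by
        refine hn1.trans (le_trans ?_ ((le_max_right _ _).trans haX))
        exact_mod_cast le_top a j1
      rw [Finset.coe_biUnion, Set.mem_iUnion₂]
      refine ⟨n, ?_, ?_⟩
      · rw [Finset.coe_range, Set.mem_Iio, Nat.lt_succ_iff]
        refine Nat.le_floor ?_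
        rw [le_div_iff₀ hlg, ← Real.log_pow]
        exact Real.log_le_log (by positivity) hNX
      · rw [Finset.mem_coe, hW]
        simp only [Set.Finite.mem_toFinset]
        refine ⟨fun j => ⟨hlow j, by exact_mod_cast hupp2 j⟩, b, hb0, fun j => (hb j).trans ?_, hbE.trans ?_⟩
        · calc (top a : ℝ) ^ κ ≤ (top a : ℝ) ^ |κ| := Real.rpow_le_rpow_of_exponent_le htop1 (le_abs_self κ)
            _ ≤ (2 * N : ℝ) ^ |κ| := Real.rpow_le_rpow (by positivity) htopN (abs_nonneg κ)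
            _ = (2 : ℝ) ^ |κ| * (N : ℝ) ^ |κ| := Real.mul_rpow (by norm_num) (by positivity)
            _ ≤ N * (N : ℝ) ^ |κ| := mul_le_mul_of_nonneg_right hbig2 (by positivity)
            _ = (N : ℝ) ^ (|κ| + 1) := by
              rw [Real.rpow_add_one (by positivity)]
              ring
        · calc (top a : ℝ) ^ (-(max E0 0)) ≤ (N : ℝ) ^ (-(max E0 0)) :=
                Real.rpow_le_rpow_of_nonpos (by linarith) hNtop (by linarith [le_max_right E0 0])
            _ ≤ (N : ℝ) ^ (-E0) := Real.rpow_le_rpow_of_exponent_le hN1r (by linarith [le_max_left E0 0])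
    · left
      rw [Finset.mem_coe, hB, Fintype.mem_piFinset]
      intro j
      rw [Finset.mem_range, Nat.lt_succ_iff, hT₀]
      have h1 := hupp j
      have h2 : (N : ℝ) + 1 ≤ (N₀ : ℝ) + 1 := by
        have h3 : N ≤ N₀ := by omega
        have h4 : (N : ℝ) ≤ N₀ := by exact_mod_cast h3
        linarith
      have h5 : (a j : ℝ) ≤ 2 * ((N₀ : ℝ) + 1) := by nlinarith
      exact_mod_cast h5
  refine ⟨(Finset.finite_toSet _).subset hsub, ?_⟩
  have h1 : ({a | a ∈ Bad m ρ κ (max E0 0) ∧ ht a ≤ X}.ncard : ℝ) ≤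
      ((B ∪ (Finset.range (L + 1)).biUnion W).card : ℝ) := by
    have h2 := Set.ncard_le_ncard hsub (Finset.finite_toSet _)
    rw [Set.ncard_coe_finset] at h2
    exact_mod_cast h2
  have h3 : ((B ∪ (Finset.range (L + 1)).biUnion W).card : ℝ) ≤
      (B.card : ℝ) + ∑ n ∈ Finset.range (L + 1), ((W n).card : ℝ) := by
    have h4 := (Finset.card_union_le B ((Finset.range (L + 1)).biUnion W)).trans
      (Nat.add_le_add_left Finset.card_biUnion_le _)
    exact_mod_cast h4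
  have h5 : ∀ n ∈ Finset.range (L + 1), ((W n).card : ℝ) ≤ |C0| * X ^ s := by
    intro n hn
    have h6 := (h ⌊g ^ n⌋₊ (hfl n)).2
    have h7 : (W n).card = (AlmostAllTuples.Exceptional m ⌊g ^ n⌋₊ (|κ| + 1) E0).ncard := by
      rw [hW, Set.ncard_eq_toFinset_card _ (h ⌊g ^ n⌋₊ (hfl n)).1]
    rw [h7]
    refine h6.trans ?_
    have h8 : ((⌊g ^ n⌋₊ : ℕ) : ℝ) ≤ X := by
      refine (Nat.floor_le (by positivity)).trans ?_
      have h9 : n ≤ L := by
        rw [Finset.mem_range] at hn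
        omega
      have h10 : (n : ℝ) ≤ Real.log X / Real.log g :=
        le_trans (by exact_mod_cast h9) (Nat.floor_le (by positivity))
      rw [le_div_iff₀ hlg, ← Real.log_pow] at h10
      exact (Real.log_le_log_iff (by positivity) hX0).1 h10
    exact mul_le_mul (le_abs_self _) (Real.rpow_le_rpow (by positivity) h8 hs0) (by positivity) (abs_nonneg _)
  have h6 : ∑ n ∈ Finset.range (L + 1), ((W n).card : ℝ) ≤ ((L : ℝ) + 1) * (|C0| * X ^ s) := by
    have h7 := Finset.sum_le_card_nsmul _ _ _ h5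
    rw [Finset.card_range, nsmul_eq_mul] at h7
    push_cast at h7
    exact h7
  have hXε : 1 ≤ X ^ ε := Real.one_le_rpow hX hε.le
  have h7 : (L : ℝ) + 1 ≤ (1 / (ε * Real.log g) + 1) * X ^ ε := by
    have h8 : (L : ℝ) ≤ Real.log X / Real.log g := Nat.floor_le (by positivity)
    have h9 : Real.log X ≤ X ^ ε / ε := Real.log_le_rpow_div hX0.le hε
    have h10 : Real.log X / Real.log g ≤ X ^ ε / ε / Real.log g := div_le_div_of_nonneg_right h9 hlg.le
    have h11 : X ^ ε / ε / Real.log g = 1 / (ε * Real.log g) * X ^ ε := by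
      field_simp
    rw [add_mul, one_mul]
    linarith
  have h12 : X ^ (s + ε) = X ^ ε * X ^ s := by
    rw [Real.rpow_add hX0, mul_comm]
  have h13 : (1 : ℝ) ≤ X ^ (s + ε) := Real.one_le_rpow hX (by linarith)
  calc ({a | a ∈ Bad m ρ κ (max E0 0) ∧ ht a ≤ X}.ncard : ℝ) ≤ (B.card : ℝ) + ((L : ℝ) + 1) * (|C0| * X ^ s) :=
        (h1.trans h3).trans (by linarith)
    _ ≤ (B.card : ℝ) * X ^ (s + ε) + (1 / (ε * Real.log g) + 1) * X ^ ε * (|C0| * X ^ s) := by
        have h14 : (B.card : ℝ) ≤ (B.card : ℝ) * X ^ (s + ε) := le_mul_of_one_le_right (by positivity) h13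
        have h15 := mul_le_mul_of_nonneg_right h7 (by positivity : (0 : ℝ) ≤ |C0| * X ^ s)
        linarith
    _ = ((B.card : ℝ) + (1 / (ε * Real.log g) + 1) * |C0|) * X ^ (s + ε) := by
        rw [h12]
        ring

/-- **Theorem.** Let `k ≥ 1`; `top a` is the largest entry of the tuple `a`.
(1) For all `κ` and `σ > (k + 1 - 1 / (k + 2)) / k` there is `E` such that for almost every `z ∈ ℝ ^ k` for which the
numbers `z_1, …, z_k, 1` are positive and none of them is at least twice another one, and for all but finitely many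
`(k + 1)`-tuples `a` of positive integers with `|a_i / a_{k + 1} - z_i| ≤ (top a) ^ (-σ)` for `i = 1, …, k`:
`|a_1^{b_1} ⋯ a_{k+1}^{b_{k+1}} - 1| > (top a) ^ (-E)` for all integers `b_j`, not all zero, with `|b_j| ≤ (top a) ^ κ`.
(2) For all `κ` and `δ > 0` there is `E` such that for every map `φ` of the `(k + 1)`-tuples to a metric space `M` and
`σ > 0` there is a set `S ⊆ M` of Hausdorff dimension at most `(k + 1 - 1 / (k + 2) + δ) / σ` such that for all `z` outside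
`S`, all `ρ < 2` and all but finitely many tuples `a` of positive integers with `a_i ≤ ρ a_j` for all `i`, `j` and
`dist (φ a, z) ≤ (top a) ^ (-σ)` the same lower bound holds. -/
theorem result (k : ℕ) (hk : 1 ≤ k) :
    (∀ κ σ : ℝ, ((k : ℝ) + 1 - 1 / ((k : ℝ) + 2)) / k < σ → ∃ E : ℝ, ∀ᵐ z : Fin k → ℝ, Comparable z →
      {a : Fin (k + 1) → ℕ | (∀ j, 1 ≤ a j) ∧
        (∀ i : Fin k, |(a i.castSucc : ℝ) / a (Fin.last k) - z i| ≤ (top a : ℝ) ^ (-σ)) ∧ Small κ E a}.Finite) ∧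
    (∀ κ δ : ℝ, 0 < δ → ∃ E : ℝ, ∀ (M : Type) [MetricSpace M] (φ : (Fin (k + 1) → ℕ) → M) (σ : ℝ), 0 < σ →
      ∃ S : Set M, dimH S ≤ ENNReal.ofReal (((k : ℝ) + 1 - 1 / ((k : ℝ) + 2) + δ) / σ) ∧ ∀ z : M, z ∉ S →
        ∀ ρ : ℝ, ρ < 2 → {a : Fin (k + 1) → ℕ | (∀ j, 1 ≤ a j) ∧ (∀ i j, (a i : ℝ) ≤ ρ * a j) ∧
          dist (φ a) z ≤ (top a : ℝ) ^ (-σ) ∧ Small κ E a}.Finite) := by
  classical
  have hk0 : (1 : ℝ) ≤ k := by exact_mod_cast hk
  have hcast : ((k + 1 : ℕ) : ℝ) - 1 / (((k + 1 : ℕ) : ℝ) + 1) = (k : ℝ) + 1 - 1 / ((k : ℝ) + 2) := by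
    push_cast
    rw [show (k : ℝ) + 1 + 1 = k + 2 by ring]
  have hs0 : 0 ≤ (k : ℝ) + 1 - 1 / ((k : ℝ) + 2) := by
    have h1 : 1 / ((k : ℝ) + 2) ≤ 1 := by
      rw [div_le_one (by positivity)]
      linarith
    linarith
  have hfr : Module.finrank ℝ (Fin k → ℝ) = k := by
    rw [Module.finrank_pi, Fintype.card_fin]
  have hρ : ∀ j : ℕ, (2 : ℝ) - 1 / ((j : ℝ) + 1) < 2 := fun j => by
    have : (0 : ℝ) < 1 / ((j : ℝ) + 1) := by positivity
    linarith
  refine ⟨fun κ σ hσ => ?_, fun κ δ hδ => ?_⟩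
  · set δ : ℝ := (k * σ - ((k : ℝ) + 1 - 1 / ((k : ℝ) + 2))) / 2 with hδdef
    have hσk : (k : ℝ) + 1 - 1 / ((k : ℝ) + 2) < k * σ := by
      rw [div_lt_iff₀ (by linarith)] at hσ
      linarith
    have hδ : 0 < δ := by
      rw [hδdef]
      linarith
    have hσ0 : 0 < σ := lt_of_le_of_lt (div_nonneg hs0 (by linarith)) hσ
    obtain ⟨E, hE⟩ := count (k + 1) (by omega) κ δ hδ
    rw [hcast] at hE
    refine ⟨E, ?_⟩
    have h1 := Pool.Agent.H2N.ae_family_space (volume : Measure (Fin k → ℝ)) (by rw [hfr]; omega)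
      (fun a : Fin (k + 1) → ℕ => fun i : Fin k => (a i.castSucc : ℝ) / (a (Fin.last k) : ℝ)) ht one_le_ht
      (s := (k : ℝ) + 1 - 1 / ((k : ℝ) + 2) + δ) (by linarith)
      (fun j : ℕ => Bad (k + 1) (2 - 1 / ((j : ℝ) + 1)) κ E) (fun j ε hε => hE _ (hρ j) ε hε)
    rw [hfr] at h1
    filter_upwards [h1] with z hz hcomp
    obtain ⟨hz1, hz2⟩ := hcomp
    -- the point with the last coordinate
    set Z : Fin (k + 1) → ℝ := Fin.lastCases 1 z with hZ
    have hZl : Z (Fin.last k) = 1 := by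
      rw [hZ]
      exact Fin.lastCases_last
    have hZc : ∀ i : Fin k, Z i.castSucc = z i := fun i => by
      rw [hZ]
      exact Fin.lastCases_castSucc i
    have hZ2 : ∀ i j, Z i < 2 * Z j := by
      intro i j
      induction i using Fin.lastCases with
      | last =>
        induction j using Fin.lastCases with
        | last => rw [hZl]; norm_num
        | cast j => rw [hZl, hZc]; linarith [(hz1 j).1]
      | cast i =>
        induction j using Fin.lastCases with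
        | last => rw [hZl, hZc]; linarith [(hz1 i).2]
        | cast j => rw [hZc, hZc]; exact hz2 i j
    have hlim0 : Tendsto (fun q : ℕ => 1 / ((q : ℝ) + 1)) atTop (𝓝 0) := tendsto_one_div_add_atTop_nhds_zero_nat
    have hev : ∀ᶠ q : ℕ in atTop, ∀ i j, Z i + 1 / ((q : ℝ) + 1) < (2 - 1 / ((q : ℝ) + 1)) * (Z j - 1 / ((q : ℝ) + 1)) := by
      rw [eventually_all]
      intro i
      rw [eventually_all]
      intro j
      have h2 : Tendsto (fun q : ℕ => Z i + 1 / ((q : ℝ) + 1)) atTop (𝓝 (Z i + 0)) := hlim0.const_add _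
      have h3 : Tendsto (fun q : ℕ => (2 - 1 / ((q : ℝ) + 1)) * (Z j - 1 / ((q : ℝ) + 1))) atTop
          (𝓝 ((2 - 0) * (Z j - 0))) := (hlim0.const_sub _).mul (hlim0.const_sub _)
      exact h2.eventually_lt h3 (by rw [add_zero, sub_zero, sub_zero]; exact hZ2 i j)
    obtain ⟨q, hq⟩ := hev.exists
    have hqp : (0 : ℝ) < 1 / ((q : ℝ) + 1) := by positivity
    have hT : ∀ᶠ t : ℕ in atTop, ((t : ℝ)) ^ (-σ) ≤ 1 / ((q : ℝ) + 1) :=
      ((tendsto_rpow_neg_atTop hσ0).comp tendsto_natCast_atTop_atTop).eventually_le_const hqp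
    obtain ⟨T₀, hT₀⟩ := eventually_atTop.1 hT
    have hbox : {a : Fin (k + 1) → ℕ | top a < T₀}.Finite := by
      refine (Finset.finite_toSet (Fintype.piFinset fun _ : Fin (k + 1) => Finset.range T₀)).subset ?_
      intro a ha
      rw [Finset.mem_coe, Fintype.mem_piFinset]
      exact fun j => Finset.mem_range.2 (lt_of_le_of_lt (le_top a j) ha)
    refine (hbox.union (hz σ ?_ q)).subset ?_
    · rw [div_lt_iff₀ (by linarith)]
      rw [hδdef]
      linarith
    · rintro a ⟨ha1, hnear, hsm⟩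
      by_cases hta : top a < T₀
      · exact Or.inl hta
      · right
        have hτ := hT₀ (top a) (not_lt.1 hta)
        have hal : (0 : ℝ) < a (Fin.last k) := by exact_mod_cast ha1 (Fin.last k)
        have hall : ∀ i : Fin (k + 1), |(a i : ℝ) / a (Fin.last k) - Z i| ≤ 1 / ((q : ℝ) + 1) := by
          intro i
          induction i using Fin.lastCases with
          | last =>
            rw [hZl, div_self hal.ne', sub_self, abs_zero]
            exact hqp.le
          | cast i =>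
            rw [hZc]
            exact (hnear i).trans hτ
        refine ⟨⟨ha1, fun i j => ?_, hsm⟩, ?_⟩
        · have h2 := (abs_le.1 (hall i)).2
          have h3 := (abs_le.1 (hall j)).1
          have h4 := hq i j
          have h5 : (a i : ℝ) / a (Fin.last k) ≤ (2 - 1 / ((q : ℝ) + 1)) * ((a j : ℝ) / a (Fin.last k)) := by
            have h6 : (0 : ℝ) ≤ 2 - 1 / ((q : ℝ) + 1) := by
              have h7 : 1 / ((q : ℝ) + 1) ≤ 1 := by
                rw [div_le_one (by positivity)]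
                linarith [Nat.cast_nonneg (α := ℝ) q]
              linarith
            have h8 := mul_le_mul_of_nonneg_left (show Z j - 1 / ((q : ℝ) + 1) ≤ (a j : ℝ) / a (Fin.last k) by linarith) h6
            linarith
          rw [← mul_div_assoc, div_le_div_iff_of_pos_right hal] at h5
          exact h5
        · show dist _ z ≤ ht a ^ (-σ)
          rw [ht_eq ha1, dist_pi_le_iff (by positivity)]
          exact hnear
  · obtain ⟨E, hE⟩ := count (k + 1) (by omega) κ δ hδ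
    rw [hcast] at hE
    refine ⟨E, fun M _ φ σ hσ => ?_⟩
    obtain ⟨S, hS1, hS2⟩ := Pool.Agent.H107.ME.dim_family φ ht one_le_ht
      (s := (k : ℝ) + 1 - 1 / ((k : ℝ) + 2) + δ) (by linarith) hσ
      (fun j : ℕ => Bad (k + 1) (2 - 1 / ((j : ℝ) + 1)) κ E) (fun j ε hε => hE _ (hρ j) ε hε)
    refine ⟨S, hS1, fun z hz ρ hρ2 => ?_⟩
    obtain ⟨j, hj⟩ := exists_nat_one_div_lt (show (0 : ℝ) < 2 - ρ by linarith)
    refine (hS2 z hz j).subset ?_
    rintro a ⟨ha1, haρ, hnear, hsm⟩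
    refine ⟨⟨ha1, fun i i' => (haρ i i').trans ?_, hsm⟩, ?_⟩
    · exact mul_le_mul_of_nonneg_right (by linarith) (by positivity)
    · rw [ht_eq ha1]
      exact hnear

end Pool.Agent.Results.MP_4eb8d9_nt.TuplesNearDirections
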